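import Pool.Agent.H480R3.GridLB

set_option autoImplicit false

namespace H480R3

theorem of_ub
    (hub : ∃ C : ℕ, ∀ n : ℕ, ∃ (F : Set (Finset (Fin n × Fin n))) (k : ℕ), F.Nonempty ∧
          (∀ D ∈ F, D.card = k) ∧ 5 * k ≤ (n+2)^2 + C ∧
          ∀ D ∈ F, ∀ v : Fin n × Fin n, ∃ D' ∈ F, v ∈ D' ∧
            ∃ f : Fin n × Fin n → Fin n × Fin n,
              Set.InjOn f (D : Set (Fin n × Fin n)) ∧ D.image f = D' ∧
              ∀ x ∈ D, f x = x ∨
                (SimpleGraph.boxProd (SimpleGraph.pathGraph n)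
                  (SimpleGraph.pathGraph n)).Adj x (f x)) :
    ∃ c : ℕ, ∀ n : ℕ,
      sInf {k : ℕ | ∃ F : Set (Finset (Fin n × Fin n)), F.Nonempty ∧
          (∀ D ∈ F, D.card = k) ∧
          ∀ D ∈ F, ∀ v : Fin n × Fin n, ∃ D' ∈ F, v ∈ D' ∧
            ∃ f : Fin n × Fin n → Fin n × Fin n,
              Set.InjOn f (D : Set (Fin n × Fin n)) ∧ D.image f = D' ∧
              ∀ x ∈ D, f x = x ∨
                (SimpleGraph.boxProd (SimpleGraph.pathGraph n)
                  (SimpleGraph.pathGraph n)).Adj x (f x)}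
        ≤ sInf {k : ℕ | ∃ D : Finset (Fin n × Fin n), D.card = k ∧
            ∀ v : Fin n × Fin n, v ∈ D ∨ ∃ u ∈ D,
              (SimpleGraph.boxProd (SimpleGraph.pathGraph n)
                (SimpleGraph.pathGraph n)).Adj u v} + c := by
  obtain ⟨C1, h1⟩ := lb
  obtain ⟨C2, h2⟩ := hub
  refine ⟨C1 + C2, fun n => ?_⟩
  obtain ⟨F, k, hF, hcard, hk, hmove⟩ := h2 n
  have hle : sInf {k : ℕ | ∃ F : Set (Finset (Fin n × Fin n)), F.Nonempty ∧
          (∀ D ∈ F, D.card = k) ∧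
          ∀ D ∈ F, ∀ v : Fin n × Fin n, ∃ D' ∈ F, v ∈ D' ∧
            ∃ f : Fin n × Fin n → Fin n × Fin n,
              Set.InjOn f (D : Set (Fin n × Fin n)) ∧ D.image f = D' ∧
              ∀ x ∈ D, f x = x ∨
                (SimpleGraph.boxProd (SimpleGraph.pathGraph n)
                  (SimpleGraph.pathGraph n)).Adj x (f x)} ≤ k := Nat.sInf_le ⟨F, hF, hcard, hmove⟩
  have hne : ({k : ℕ | ∃ D : Finset (Fin n × Fin n), D.card = k ∧
            ∀ v : Fin n × Fin n, v ∈ D ∨ ∃ u ∈ D,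
              (SimpleGraph.boxProd (SimpleGraph.pathGraph n)
                (SimpleGraph.pathGraph n)).Adj u v}).Nonempty :=
    ⟨_, Finset.univ, rfl, fun v => Or.inl (Finset.mem_univ v)⟩
  obtain ⟨D, hD1, hD2⟩ := Nat.sInf_mem hne
  have h3 := h1 n D hD2
  rw [hD1] at h3
  omega

end H480R3
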