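import Pool.Agent.H480R3.BandCheck

set_option autoImplicit false

namespace H480R3.Band

def tab (y : ℕ) : ℕ :=
  if y = 0 then T0 else if y = 1 then T1 else if y = 2 then T2 else if y = 3 then T3
  else if y = 4 then T4 else if y = 5 then T5 else if y = 6 then T6 else if y = 7 then T7
  else if y = 8 then T8 else T9

def cst (y : ℕ) : ℕ := if y = 9 then 4 else 5
def dlt (y : ℕ) : ℕ := if y = 9 then 2 else 1
def hlp (y : ℕ) : ℕ := if y = 9 then 1 else 31
def ah (y a : ℕ) : ℕ := if y = 0 then a else if a = 2 then 1 else a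
def nw (y a : ℕ) : ℕ := if y = 0 then 2 else if a = 0 then 1 else 2

set_option maxRecDepth 100000

theorem c0_0 : top 5 1 31 0 0 2 T0 T1 = true := by decide +kernel
theorem c0_1 : top 5 1 31 1 1 2 T0 T1 = true := by decide +kernel
theorem c0_2 : top 5 1 31 2 2 2 T0 T1 = true := by decide +kernel
theorem c1_0 : top 5 1 31 0 0 1 T1 T2 = true := by decide +kernel
theorem c1_1 : top 5 1 31 1 1 2 T1 T2 = true := by decide +kernel
theorem c1_2 : top 5 1 31 2 1 2 T1 T2 = true := by decide +kernel
theorem c2_0 : top 5 1 31 0 0 1 T2 T3 = true := by decide +kernel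
theorem c2_1 : top 5 1 31 1 1 2 T2 T3 = true := by decide +kernel
theorem c2_2 : top 5 1 31 2 1 2 T2 T3 = true := by decide +kernel
theorem c3_0 : top 5 1 31 0 0 1 T3 T4 = true := by decide +kernel
theorem c3_1 : top 5 1 31 1 1 2 T3 T4 = true := by decide +kernel
theorem c3_2 : top 5 1 31 2 1 2 T3 T4 = true := by decide +kernel
theorem c4_0 : top 5 1 31 0 0 1 T4 T5 = true := by decide +kernel
theorem c4_1 : top 5 1 31 1 1 2 T4 T5 = true := by decide +kernel
theorem c4_2 : top 5 1 31 2 1 2 T4 T5 = true := by decide +kernel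
theorem c5_0 : top 5 1 31 0 0 1 T5 T6 = true := by decide +kernel
theorem c5_1 : top 5 1 31 1 1 2 T5 T6 = true := by decide +kernel
theorem c5_2 : top 5 1 31 2 1 2 T5 T6 = true := by decide +kernel
theorem c6_0 : top 5 1 31 0 0 1 T6 T7 = true := by decide +kernel
theorem c6_1 : top 5 1 31 1 1 2 T6 T7 = true := by decide +kernel
theorem c6_2 : top 5 1 31 2 1 2 T6 T7 = true := by decide +kernel
theorem c7_0 : top 5 1 31 0 0 1 T7 T8 = true := by decide +kernel
theorem c7_1 : top 5 1 31 1 1 2 T7 T8 = true := by decide +kernel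
theorem c7_2 : top 5 1 31 2 1 2 T7 T8 = true := by decide +kernel
theorem c8_0 : top 5 1 31 0 0 1 T8 T9 = true := by decide +kernel
theorem c8_1 : top 5 1 31 1 1 2 T8 T9 = true := by decide +kernel
theorem c8_2 : top 5 1 31 2 1 2 T8 T9 = true := by decide +kernel
theorem c9_0 : top 4 2 1 0 0 1 T9 T0 = true := by decide +kernel
theorem c9_1 : top 4 2 1 1 1 2 T9 T0 = true := by decide +kernel
theorem c9_2 : top 4 2 1 2 1 2 T9 T0 = true := by decide +kernel

end H480R3.Band
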