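import Pool.Agent.H480R3.BandTables

set_option autoImplicit false

namespace H480R3.Band

/-- block `i` of a table of depth `m+1` (entries of 5 bits). -/
def child (m i T : ℕ) : ℕ := Nat.mod (Nat.shiftRight T (Nat.mul (Nat.mul 5 (Nat.pow 3 m)) i)) (Nat.pow 2 (Nat.mul 5 (Nat.pow 3 m)))

def leaf (c δ hlp T G K1 K2 : ℕ) : Bool :=
  and (Nat.ble (Nat.add G δ) (Nat.add (child 0 0 T) c))
  (and (Nat.ble (Nat.add G δ) (Nat.add (child 0 1 T) c))
  (and (Nat.ble (Nat.add G δ) (Nat.add (child 0 2 T) c))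
  (and (Nat.ble (Nat.add K1 δ) (child 0 0 T))
  (and (Nat.ble (Nat.add K2 δ) (child 0 1 T))
    (Nat.ble (Nat.add K1 δ) (Nat.add (child 0 1 T) hlp))))))

def chk (c δ hlp : ℕ) (d : ℕ) : ℕ → ℕ → ℕ → ℕ → Bool :=
  Nat.rec (motive := fun _ => ℕ → ℕ → ℕ → ℕ → Bool)
    (fun T G K1 K2 => leaf c δ hlp T G K1 K2)
    (fun m ih T G K1 K2 =>
      and (ih (child (Nat.succ m) 0 T) (child m 0 G) (child m 0 K1) (child m 0 K2))
      (and (ih (child (Nat.succ m) 1 T) (child m 1 G) (child m 1 K1) (child m 1 K2))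
        (ih (child (Nat.succ m) 2 T) (child m 2 G) (child m 2 K1) (child m 2 K2))))
    d

/-- top level check for one row `y` and first symbol `a`. `ah` is the updated symbol, `nw` the new symbol in case z=1. -/
def top (c δ hlp a ah nw T T' : ℕ) : Bool :=
  chk c δ hlp 8 (child 9 a T) (child 8 ah (child 9 0 T')) (child 8 a (child 9 1 T')) (child 8 a (child 9 nw T'))

end H480R3.Band
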