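import Pool.Agent.H480R3.BandSound

set_option autoImplicit false

namespace H480R3.Band

variable (d : ℕ → ℕ → Bool)

def g (t : ℕ) : Bool := d (t/10) (t%10)
def dn (t : ℕ) : Bool := decide (t%10 ≠ 0) && g d (t-1)
def sg (t : ℕ) : ℕ :=
  if g d t then 0
  else if (g d (t-10) || dn d t || (if t%10 = 9 then d (t/10) 10 else g d (t+1))) then 1 else 2
def tg (t : ℕ) : ℕ :=
  if g d t then 0
  else if (g d (t-10) || dn d t || (decide (t%10 = 9) && d (t/10) 10)) then 1 else 2

theorem sg_lt (t : ℕ) : sg d t < 3 := by
  unfold sg; split_ifs <;> norm_num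

theorem tg_lt (t : ℕ) : tg d t < 3 := by
  unfold tg; split_ifs <;> norm_num

def bsl (u : ℕ) : List ℕ :=
  [sg d (u+18), sg d (u+17), sg d (u+16), sg d (u+15), sg d (u+14), sg d (u+13), sg d (u+12), sg d (u+11)]

def prof (u : ℕ) : List ℕ := tg d (u+19) :: (bsl d u ++ [sg d (u+10)])

theorem prof_succ (u : ℕ) : prof d (u+1) = tg d (u+20) :: sg d (u+19) :: bsl d u := by
  simp [prof, bsl, add_assoc, add_comm, add_left_comm]

def cost (t : ℕ) : ℕ :=
  if t%10 = 9 then 4 * (g d t).toNat + (d (t/10) 10).toNat else 5 * (g d t).toNat

theorem step (u : ℕ)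
    (hdom : g d (u+10) = true ∨ g d u = true ∨ dn d (u+10) = true ∨
      (if (u+10)%10 = 9 then d ((u+10)/10) 10 else g d (u+11)) = true ∨ g d (u+20) = true) :
    phi ((u+1)%10) (prof d (u+1)) + dlt (u%10) ≤ phi (u%10) (prof d u) + cost d (u+20) := by
  have hy : u % 10 < 10 := Nat.mod_lt _ (by norm_num)
  have hmod : (u+1)%10 = (u%10+1)%10 := by omega
  obtain ⟨p1, p2, p3, p4⟩ := phi_step (u%10) hy (tg d (u+19)) (tg_lt d _) (bsl d u) (by simp [bsl])
    (by intro b hb
        simp only [bsl, List.mem_cons, List.not_mem_nil, or_false] at hb
        rcases hb with h|h|h|h|h|h|h|h <;> (rw [h]; exact sg_lt d _))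
  rw [prof_succ, hmod]
  have hm20 : (u+20)%10 = u%10 := by omega
  have h19 : ((u+19)%10 = 9) ↔ u%10 = 0 := by omega
  by_cases hg : g d (u+20) = true
  · -- guard
    have ht : tg d (u+20) = 0 := by simp [tg, hg]
    have hs : sg d (u+19) = ah (u%10) (tg d (u+19)) := by
      unfold ah
      by_cases h0 : u%10 = 0
      · rw [if_pos h0]
        have h9 := h19.mpr h0
        unfold sg tg
        simp [h9]
      · rw [if_neg h0]
        have h9 : ¬ ((u+19)%10 = 9) := fun h => h0 (h19.mp h)
        by_cases hg19 : g d (u+19) = true
        · simp [sg, tg, hg19]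
        · unfold sg tg
          simp only [hg19, h9, if_false]
          have : g d (u+19+1) = true := by
            have : u + 19 + 1 = u + 20 := by ring
            rw [this]; exact hg
          simp only [this]
          by_cases hc : (g d (u + 19 - 10) || dn d (u + 19)) = true
          · simp [hc]
          · simp [hc]
    rw [ht, hs]
    have := p1 (sg d (u+10)) (sg_lt d _)
    have hc : cst (u%10) ≤ cost d (u+20) := by
      unfold cst cost
      rw [hm20, hg]
      split_ifs <;> simp
    unfold prof
    omega
  · -- no guard
    have hgf : g d (u+20) = false := by simpa using hg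
    have hs : sg d (u+19) = tg d (u+19) := by
      by_cases h0 : u%10 = 0
      · have h9 := h19.mpr h0
        unfold sg tg
        simp [h9]
      · have h9 : ¬ ((u+19)%10 = 9) := fun h => h0 (h19.mp h)
        unfold sg tg
        have : g d (u+19+1) = false := by
            have : u + 19 + 1 = u + 20 := by ring
            rw [this]; exact hgf
        simp [h9, this]
    rw [hs]
    by_cases hz : g d (u+10) = true
    · -- z = 0
      have hz0 : sg d (u+10) = 0 := by simp [sg, hz]
      have ht : tg d (u+20) = 1 := by
        have e : u + 20 - 10 = u + 10 := by omega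
        simp [tg, hgf, e, hz]
      rw [ht]
      unfold prof
      rw [hz0]
      omega
    · have hzf : g d (u+10) = false := by simpa using hz
      have hz1 : sg d (u+10) = 1 := by
        have e1 : u + 10 - 10 = u := by omega
        have e2 : u + 10 + 1 = u + 11 := by omega
        have : (g d (u + 10 - 10) || dn d (u + 10) || (if (u+10)%10 = 9 then d ((u+10)/10) 10 else g d (u+10+1))) = true := by
          rw [e1, e2]
          simp only [Bool.or_eq_true]
          rcases hdom with h|h|h|h|h
          · rw [hzf] at h; exact absurd h (by simp)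
          · exact Or.inl (Or.inl h)
          · exact Or.inl (Or.inr h)
          · exact Or.inr h
          · rw [hgf] at h; exact absurd h (by simp)
        unfold sg
        rw [hzf]
        simp only [Bool.false_eq_true, if_false]
        rw [if_pos this]
      have e3 : u + 20 - 10 = u + 10 := by omega
      have e4 : u + 20 - 1 = u + 19 := by omega
      unfold prof
      rw [hz1]
      by_cases hdn : dn d (u+20) = true
      · have ht : tg d (u+20) = 1 := by simp [tg, hgf, hdn]
        unfold dn at hdn
        rw [e4, hm20] at hdn
        simp only [Bool.and_eq_true, decide_eq_true_eq] at hdn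
        have ha : tg d (u+19) = 0 := by simp [tg, hdn.2]
        have hn : nw (u%10) (tg d (u+19)) = 1 := by simp [nw, hdn.1, ha]
        rw [hn] at p3
        rw [ht]
        omega
      · have hdnf : dn d (u+20) = false := by simpa using hdn
        by_cases hh : (decide ((u+20)%10 = 9) && d ((u+20)/10) 10) = true
        · have ht : tg d (u+20) = 1 := by
            unfold tg
            rw [hgf, hh]
            simp
          rw [ht]
          simp only [Bool.and_eq_true, decide_eq_true_eq] at hh
          have h9 : u % 10 = 9 := by rw [← hm20]; exact hh.1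
          have hc : cost d (u+20) = 1 := by
            unfold cost
            rw [if_pos hh.1, hgf, hh.2]
            simp
          have hhl : hlp (u%10) = 1 := by simp [hlp, h9]
          rw [hc]
          rw [hhl] at p4
          exact p4
        · have hhf : (decide ((u+20)%10 = 9) && d ((u+20)/10) 10) = false := by simpa using hh
          have ht : tg d (u+20) = 2 := by
            unfold tg
            rw [hgf, hhf, e3, hzf, hdnf]
            simp
          have hn : nw (u%10) (tg d (u+19)) = 2 := by
            unfold nw
            by_cases h0 : u%10 = 0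
            · rw [if_pos h0]
            · rw [if_neg h0]
              have : g d (u+19) = false := by
                unfold dn at hdnf
                rw [e4, hm20] at hdnf
                simpa [h0] using hdnf
              have : tg d (u+19) ≠ 0 := by
                unfold tg
                rw [this]
                simp only [Bool.false_eq_true, if_false]
                split_ifs <;> norm_num
              rw [if_neg this]
          rw [hn] at p3
          rw [ht]
          omega

theorem sum_steps (M : ℕ)
    (hdom : ∀ u, u < M → (g d (u+10) = true ∨ g d u = true ∨ dn d (u+10) = true ∨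
      (if (u+10)%10 = 9 then d ((u+10)/10) 10 else g d (u+11)) = true ∨ g d (u+20) = true)) :
    phi (M%10) (prof d M) + ∑ u ∈ Finset.range M, dlt (u%10) ≤
      phi 0 (prof d 0) + ∑ u ∈ Finset.range M, cost d (u+20) := by
  induction M with
  | zero => simp
  | succ M ih =>
    have h1 := ih (fun u hu => hdom u (by omega))
    have h2 := step d M (hdom M (by omega))
    rw [Finset.sum_range_succ, Finset.sum_range_succ]
    omega

theorem sum_dlt (m : ℕ) : ∑ u ∈ Finset.range (10*m), dlt (u%10) = 11*m := by
  induction m with
  | zero => simp
  | succ m ih =>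
    have e : 10*(m+1) = 10*m + 10 := by ring
    rw [e, Finset.sum_range_add, ih]
    have : ∀ x, dlt ((10*m+x)%10) = dlt (x%10) := by
      intro x; congr 1; omega
    simp only [this]
    have h : ∑ x ∈ Finset.range 10, dlt (x%10) = 11 := by decide
    rw [h]; ring

theorem sum_cost (m : ℕ) : ∑ u ∈ Finset.range (10*m), cost d (u+20) =
    ∑ i ∈ Finset.range m, ((∑ y ∈ Finset.range 9, 5 * (d (i+2) y).toNat) + 4 * (d (i+2) 9).toNat + (d (i+2) 10).toNat) := by
  induction m with
  | zero => simp
  | succ m ih =>
    have e : 10*(m+1) = 10*m + 10 := by ring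
    rw [e, Finset.sum_range_add, ih, Finset.sum_range_succ (fun i => ((∑ y ∈ Finset.range 9, 5 * (d (i+2) y).toNat) + 4 * (d (i+2) 9).toNat + (d (i+2) 10).toNat)) m]
    have h1 : ∀ x, x < 9 → cost d (10*m+x+20) = 5 * (d (m+2) x).toNat := by
      intro x hx
      unfold cost g
      have a1 : (10*m+x+20)%10 = x := by omega
      have a2 : (10*m+x+20)/10 = m+2 := by omega
      rw [a1, a2, if_neg (by omega)]
    have h2 : cost d (10*m+9+20) = 4 * (d (m+2) 9).toNat + (d (m+2) 10).toNat := by
      unfold cost g
      have a1 : (10*m+9+20)%10 = 9 := by omega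
      have a2 : (10*m+9+20)/10 = m+2 := by omega
      rw [a1, a2, if_pos rfl]
    rw [Finset.sum_range_succ (fun x => cost d (10*m+x+20)) 9, h2]
    rw [Finset.sum_congr rfl (fun x hx => h1 x (Finset.mem_range.mp hx))]
    omega

theorem band_seq (m : ℕ)
    (hd : ∀ i, 1 ≤ i → i ≤ m → ∀ y, y < 10 → (d i y = true ∨ d (i-1) y = true ∨ (y ≠ 0 ∧ d i (y-1) = true) ∨
      d i (y+1) = true ∨ d (i+1) y = true)) :
    11*m ≤ 31 + ∑ i ∈ Finset.range m, ((∑ y ∈ Finset.range 9, 5 * (d (i+2) y).toNat) + 4 * (d (i+2) 9).toNat + (d (i+2) 10).toNat) := by
  have h := sum_steps d (10*m) (by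
    intro u hu
    have hi := hd ((u+10)/10) (by omega) (by omega) ((u+10)%10) (by omega)
    have a1 : (u+10)/10 - 1 = u/10 := by omega
    have a2 : (u+10)%10 = u%10 := by omega
    have a3 : (u+20)/10 = (u+10)/10+1 := by omega
    have a4 : (u+20)%10 = (u+10)%10 := by omega
    rcases hi with h|h|h|h|h
    · left; exact h
    · right; left
      unfold g; rw [← a1, ← a2]; exact h
    · right; right; left
      unfold dn g
      have b1 : (u+10-1)/10 = (u+10)/10 := by omega
      have b2 : (u+10-1)%10 = (u+10)%10-1 := by omega
      rw [b1, b2]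
      simp only [Bool.and_eq_true, decide_eq_true_eq]
      exact h
    · right; right; right; left
      by_cases h9 : (u+10)%10 = 9
      · rw [if_pos h9]; rw [h9] at h; exact h
      · rw [if_neg h9]
        unfold g
        have b1 : (u+11)/10 = (u+10)/10 := by omega
        have b2 : (u+11)%10 = (u+10)%10+1 := by omega
        rw [b1, b2]; exact h
    · right; right; right; right
      unfold g; rw [a3, a4]; exact h)
  rw [sum_dlt, sum_cost] at h
  have hl : phi 0 (prof d 0) < 32 := look_lt _ (by simp [prof]) _
  omega

end H480R3.Band
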