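import Pool.Agent.H480R3.BandCert

set_option autoImplicit false

namespace H480R3.Band

/-- table lookup along a list of ternary digits -/
def look : List ℕ → ℕ → ℕ
  | [], T => T
  | i :: bs, T => look bs (child bs.length i T)

theorem all_top (y a : ℕ) (hy : y < 10) (ha : a < 3) :
    top (cst y) (dlt y) (hlp y) a (ah y a) (nw y a) (tab y) (tab ((y+1)%10)) = true := by
  interval_cases y <;> interval_cases a
  · exact c0_0
  · exact c0_1
  · exact c0_2
  · exact c1_0
  · exact c1_1
  · exact c1_2
  · exact c2_0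
  · exact c2_1
  · exact c2_2
  · exact c3_0
  · exact c3_1
  · exact c3_2
  · exact c4_0
  · exact c4_1
  · exact c4_2
  · exact c5_0
  · exact c5_1
  · exact c5_2
  · exact c6_0
  · exact c6_1
  · exact c6_2
  · exact c7_0
  · exact c7_1
  · exact c7_2
  · exact c8_0
  · exact c8_1
  · exact c8_2
  · exact c9_0
  · exact c9_1
  · exact c9_2

theorem chk_zero (c δ h T G K1 K2 : ℕ) : chk c δ h 0 T G K1 K2 = leaf c δ h T G K1 K2 := rfl

theorem chk_succ (c δ h m T G K1 K2 : ℕ) : chk c δ h (m+1) T G K1 K2 =
   and (chk c δ h m (child (Nat.succ m) 0 T) (child m 0 G) (child m 0 K1) (child m 0 K2))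
      (and (chk c δ h m (child (Nat.succ m) 1 T) (child m 1 G) (child m 1 K1) (child m 1 K2))
        (chk c δ h m (child (Nat.succ m) 2 T) (child m 2 G) (child m 2 K1) (child m 2 K2))) := rfl

theorem chk_sound (c δ h : ℕ) : ∀ (m T G K1 K2 : ℕ), chk c δ h m T G K1 K2 = true →
    ∀ bs : List ℕ, bs.length = m → (∀ b ∈ bs, b < 3) →
      (∀ z, z < 3 → look bs G + δ ≤ look (bs ++ [z]) T + c) ∧
      (look bs K1 + δ ≤ look (bs ++ [0]) T) ∧
      (look bs K2 + δ ≤ look (bs ++ [1]) T) ∧
      (look bs K1 + δ ≤ look (bs ++ [1]) T + h) := by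
  intro m
  induction m with
  | zero =>
    intro T G K1 K2 hc bs hl hb
    rw [chk_zero] at hc
    have hbs : bs = [] := List.length_eq_zero_iff.mp hl
    subst hbs
    simp only [leaf, Bool.and_eq_true, Nat.ble_eq, Nat.add_eq] at hc
    obtain ⟨h0, h1, h2, h3, h4, h5⟩ := hc
    refine ⟨?_, ?_, ?_, ?_⟩
    · intro z hz
      simp only [look, List.nil_append, List.length_nil]
      interval_cases z
      · exact h0
      · exact h1
      · exact h2
    · simpa [look] using h3
    · simpa [look] using h4
    · simpa [look] using h5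
  | succ m ih =>
    intro T G K1 K2 hc bs hl hb
    rw [chk_succ] at hc
    simp only [Bool.and_eq_true] at hc
    obtain ⟨h0, h1, h2⟩ := hc
    obtain ⟨i, bs', rfl⟩ : ∃ i bs', bs = i :: bs' := by
      cases bs with
      | nil => simp at hl
      | cons i bs' => exact ⟨i, bs', rfl⟩
    have hl' : bs'.length = m := by simpa using hl
    have hi : i < 3 := hb i (by simp)
    have hb' : ∀ b ∈ bs', b < 3 := fun b hb1 => hb b (by simp [hb1])
    have key : chk c δ h m (child (Nat.succ m) i T) (child m i G) (child m i K1) (child m i K2) = true := by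
      interval_cases i
      · exact h0
      · exact h1
      · exact h2
    have := ih _ _ _ _ key bs' hl' hb'
    have e1 : ∀ z T, look ((i :: bs') ++ [z]) T = look (bs' ++ [z]) (child (Nat.succ m) i T) := by
      intro z T
      simp [look, hl']
    have e2 : ∀ T, look (i :: bs') T = look bs' (child m i T) := by
      intro T; simp [look, hl']
    simp only [e1, e2]
    exact this

/-- potential -/
def phi (y : ℕ) (p : List ℕ) : ℕ := look p (tab y)

theorem phi_step (y : ℕ) (hy : y < 10) (a : ℕ) (ha : a < 3) (bs : List ℕ) (hl : bs.length = 8)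
    (hb : ∀ b ∈ bs, b < 3) :
      (∀ z, z < 3 → phi ((y+1)%10) (0 :: ah y a :: bs) + dlt y ≤ phi y (a :: (bs ++ [z])) + cst y) ∧
      (phi ((y+1)%10) (1 :: a :: bs) + dlt y ≤ phi y (a :: (bs ++ [0]))) ∧
      (phi ((y+1)%10) (nw y a :: a :: bs) + dlt y ≤ phi y (a :: (bs ++ [1]))) ∧
      (phi ((y+1)%10) (1 :: a :: bs) + dlt y ≤ phi y (a :: (bs ++ [1])) + hlp y) := by
  have h := all_top y a hy ha
  unfold top at h
  have := chk_sound _ _ _ _ _ _ _ _ h bs hl hb
  have e1 : ∀ z, phi y (a :: (bs ++ [z])) = look (bs ++ [z]) (child 9 a (tab y)) := by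
    intro z; simp [phi, look, hl]
  have e2 : ∀ u v, phi ((y+1)%10) (u :: v :: bs) = look bs (child 8 v (child 9 u (tab ((y+1)%10)))) := by
    intro u v; simp [phi, look, hl]
  simp only [e1, e2]
  exact this

theorem look_lt (bs : List ℕ) (hne : bs ≠ []) (T : ℕ) : look bs T < 32 := by
  induction bs generalizing T with
  | nil => exact absurd rfl hne
  | cons i bs ih =>
    by_cases h : bs = []
    · subst h
      simp only [look, List.length_nil, child]
      have : Nat.pow 2 (Nat.mul 5 (Nat.pow 3 0)) = 32 := by decide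
      rw [this]
      exact Nat.mod_lt _ (by norm_num)
    · simp only [look]
      exact ih h _

end H480R3.Band
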