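import Pool.Agent.H480R3.BandSeq

set_option autoImplicit false

namespace H480R3.Band

open Finset

/-- (number of guards in the closed neighbourhood) - 1 -/
def L (e : ℤ → ℤ → ℤ) (x y : ℤ) : ℤ := e x y + e (x-1) y + e (x+1) y + e x (y-1) + e x (y+1) - 1

theorem sum_shift_down (f : ℤ → ℤ) (n : ℕ) :
    ∑ i ∈ range n, f ((i:ℤ)+1-1) = ∑ i ∈ range n, f ((i:ℤ)+1) + f 0 - f n := by
  induction n with
  | zero => simp
  | succ n ih =>
    rw [sum_range_succ, sum_range_succ, ih]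
    push_cast
    have : (n:ℤ) + 1 - 1 = n := by ring
    rw [this]; ring

theorem sum_shift_up (f : ℤ → ℤ) (n : ℕ) :
    ∑ i ∈ range n, f ((i:ℤ)+1+1) = ∑ i ∈ range n, f ((i:ℤ)+1) + f (n+1) - f 1 := by
  induction n with
  | zero => simp
  | succ n ih =>
    rw [sum_range_succ, sum_range_succ, ih]
    push_cast
    ring

def S (e : ℤ → ℤ → ℤ) (x : ℤ) : ℤ := ∑ j ∈ range 10, e x (1+(j:ℤ))

theorem col_sum (e : ℤ → ℤ → ℤ) (h0 : ∀ x, e x 0 = 0) (x : ℤ) :
    ∑ j ∈ range 10, L e x (1+(j:ℤ)) + e x 1 = 3 * S e x + S e (x-1) + S e (x+1) - e x 10 + e x 11 - 10 := by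
  simp only [L, S, sum_range_succ, sum_range_zero]
  norm_num
  rw [h0 x]
  ring

theorem S_bounds (e : ℤ → ℤ → ℤ) (h01 : ∀ x y, e x y = 0 ∨ e x y = 1) (x : ℤ) :
    0 ≤ S e x ∧ S e x ≤ 10 := by
  have h : ∀ y, 0 ≤ e x y ∧ e x y ≤ 1 := by
    intro y; rcases h01 x y with h|h <;> rw [h] <;> norm_num
  constructor
  · exact sum_nonneg (fun j _ => (h _).1)
  · calc S e x ≤ ∑ j ∈ range 10, (1:ℤ) := sum_le_sum (fun j _ => (h _).2)
      _ = 10 := by simp

theorem tele (f : ℤ → ℤ) (a : ℤ) (m : ℕ) :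
    ∑ i ∈ range m, f (a + (i:ℤ) + 1) = ∑ i ∈ range m, f (a + (i:ℤ)) + f (a + m) - f a := by
  induction m with
  | zero => simp
  | succ m ih =>
    rw [sum_range_succ, sum_range_succ, ih]
    push_cast
    have : a + ((m:ℤ)+1) = a + m + 1 := by ring
    rw [this]; ring

theorem band_int (e : ℤ → ℤ → ℤ) (h01 : ∀ x y, e x y = 0 ∨ e x y = 1) (h0 : ∀ x, e x 0 = 0)
    (a : ℤ) (m : ℕ) (hdom : ∀ i : ℕ, i < m → ∀ j : ℕ, j < 10 → 0 ≤ L e (a+i) (1+j)) :
    (m:ℤ) - 102 ≤ ∑ i ∈ range m, (∑ j ∈ range 10, L e (a+i) (1+(j:ℤ)) + e (a+i) 1) := by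
  set d : ℕ → ℕ → Bool := fun i y => decide (e (a - 1 + i) (1+(y:ℤ)) = 1) with hd
  have hval : ∀ i y, ((d i y).toNat : ℤ) = e (a - 1 + i) (1+(y:ℤ)) := by
    intro i y
    rcases h01 (a - 1 + i) (1+(y:ℤ)) with h|h <;> simp [hd, h]
  have hb := band_seq d m (by
    intro i hi1 him y hy
    have h := hdom (i-1) (by omega) y hy
    unfold L at h
    have c1 : a + ((i-1 : ℕ):ℤ) = a - 1 + i := by push_cast [Nat.cast_sub hi1]; ring
    rw [c1] at h
    simp only [hd, decide_eq_true_eq]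
    have c2 : ((i-1 : ℕ):ℤ) = (i:ℤ) - 1 := by push_cast [Nat.cast_sub hi1]; ring
    rw [c2]
    push_cast
    have e1 : a - 1 + (i:ℤ) - 1 = a - 1 + ((i:ℤ) - 1) := by ring
    have e2 : a - 1 + (i:ℤ) + 1 = a - 1 + ((i:ℤ) + 1) := by ring
    have e3 : 1 + (y:ℤ) + 1 = 1 + ((y:ℤ) + 1) := by ring
    rw [e1, e2, e3] at h
    by_cases hy0 : y = 0
    · subst hy0
      have : e (a - 1 + i) (1 + ((0:ℕ):ℤ) - 1) = 0 := by
        have : (1 + ((0:ℕ):ℤ) - 1) = 0 := by norm_num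
        rw [this]; exact h0 _
      rw [this] at h
      rcases h01 (a - 1 + i) (1 + ((0:ℕ):ℤ)) with q1|q1
      · rcases h01 (a - 1 + (i-1)) (1 + ((0:ℕ):ℤ)) with q2|q2
        · rcases h01 (a - 1 + (i+1)) (1 + ((0:ℕ):ℤ)) with q3|q3
          · rcases h01 (a - 1 + i) (1 + (((0:ℕ):ℤ)+1)) with q4|q4
            · rw [q1, q2, q3, q4] at h; norm_num at h
            · right; right; right; left; exact q4
          · right; right; right; right; exact q3
        · right; left; exact q2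
      · left; exact q1
    · have c3 : ((y-1 : ℕ):ℤ) = (y:ℤ) - 1 := by push_cast [Nat.cast_sub (Nat.one_le_iff_ne_zero.mpr hy0)]; ring
      rw [c3]
      have e4 : 1 + (y:ℤ) - 1 = 1 + ((y:ℤ) - 1) := by ring
      rw [e4] at h
      rcases h01 (a - 1 + i) (1 + (y:ℤ)) with q1|q1
      · rcases h01 (a - 1 + (i-1)) (1 + (y:ℤ)) with q2|q2
        · rcases h01 (a - 1 + (i+1)) (1 + (y:ℤ)) with q3|q3
          · rcases h01 (a - 1 + i) (1 + ((y:ℤ)+1)) with q4|q4
            · rcases h01 (a - 1 + i) (1 + ((y:ℤ)-1)) with q5|q5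
              · rw [q1, q2, q3, q4, q5] at h; norm_num at h
              · right; right; left; exact ⟨hy0, q5⟩
            · right; right; right; left; exact q4
          · right; right; right; right; exact q3
        · right; left; exact q2
      · left; exact q1)
  -- translate the cost
  have hcost : ∀ i : ℕ, ((((∑ y ∈ Finset.range 9, 5 * (d (i+2) y).toNat) + 4 * (d (i+2) 9).toNat + (d (i+2) 10).toNat : ℕ)) : ℤ)
      = 5 * S e (a+i+1) - e (a+i+1) 10 + e (a+i+1) 11 := by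
    intro i
    push_cast
    simp only [hval]
    have : a - 1 + ((i + 2 : ℕ):ℤ) = a + i + 1 := by push_cast; ring
    simp only [S, sum_range_succ, sum_range_zero, this]
    push_cast
    norm_num
    ring
  have hb' : (11 * m : ℤ) ≤ 31 + ∑ i ∈ range m, (5 * S e (a+i+1) - e (a+i+1) 10 + e (a+i+1) 11) := by
    have : ((11*m : ℕ):ℤ) ≤ ((31 + ∑ i ∈ Finset.range m, ((∑ y ∈ Finset.range 9, 5 * (d (i+2) y).toNat) + 4 * (d (i+2) 9).toNat + (d (i+2) 10).toNat) : ℕ) : ℤ) := by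
      exact_mod_cast hb
    rw [Nat.cast_add, Nat.cast_sum, sum_congr rfl (fun i _ => hcost i)] at this
    push_cast at this
    exact this
  rw [tele (fun x => 5 * S e x - e x 10 + e x 11)] at hb'
  have hcs : ∀ i : ℕ, ∑ j ∈ range 10, L e (a+i) (1+(j:ℤ)) + e (a+i) 1 =
      (5 * S e (a+i) - e (a+i) 10 + e (a+i) 11) + (S e (a+i+1) - S e (a+i)) - (S e (a-1+i+1) - S e (a-1+i)) - 10 := by
    intro i
    rw [col_sum e h0]
    have e1 : a - 1 + (i:ℤ) + 1 = a + i := by ring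
    have e2 : a - 1 + (i:ℤ) = a + i - 1 := by ring
    rw [e1, e2]
    ring
  rw [sum_congr rfl (fun i _ => hcs i)]
  rw [sum_sub_distrib, sum_sub_distrib, sum_add_distrib, sum_sub_distrib, sum_sub_distrib (f := fun i : ℕ => S e (a-1+i+1)),
    tele (S e), tele (S e)]
  simp only [sum_const, card_range, nsmul_eq_mul]
  have b1 := S_bounds e h01 a
  have b2 := S_bounds e h01 (a+m)
  have b3 := S_bounds e h01 (a-1)
  have b4 := S_bounds e h01 (a-1+m)
  have b5 : 0 ≤ 5 * S e a - e a 10 + e a 11 := by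
    have : e a 10 ≤ S e a := by
      have : e a (1 + ((9:ℕ):ℤ)) ≤ ∑ j ∈ range 10, e a (1+(j:ℤ)) := by
        apply single_le_sum (f := fun j : ℕ => e a (1+(j:ℤ)))
        · intro i _; rcases h01 a (1+(i:ℤ)) with h|h <;> rw [h] <;> norm_num
        · simp
      have e1 : (1 + ((9:ℕ):ℤ)) = 10 := by norm_num
      rw [e1] at this
      exact this
    rcases h01 a 11 with h|h <;> rw [h] <;> linarith [b1.1]
  have b6 : 5 * S e (a+m) - e (a+m) 10 + e (a+m) 11 ≤ 51 := by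
    rcases h01 (a+m) 11 with h|h <;> rcases h01 (a+m) 10 with h'|h' <;> rw [h, h'] <;> linarith [b2.2]
  linarith [b1.1, b1.2, b2.1, b2.2, b3.1, b3.2, b4.1, b4.2]

theorem L_flip (e : ℤ → ℤ → ℤ) (c x y : ℤ) : L (fun x y => e x (c - y)) x y = L e x (c - y) := by
  unfold L
  have e1 : c - (y - 1) = c - y + 1 := by ring
  have e2 : c - (y + 1) = c - y - 1 := by ring
  simp only [e1, e2]; ring

theorem L_swap (e : ℤ → ℤ → ℤ) (x y : ℤ) : L (fun x y => e y x) x y = L e y x := by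
  unfold L; ring

/-- main inequality for 0/1 functions on the plane supported in the square `[1,n]^2`. -/
theorem total (n : ℕ) (e : ℤ → ℤ → ℤ) (h01 : ∀ x y, e x y = 0 ∨ e x y = 1)
    (hx0 : ∀ y, e 0 y = 0) (hxn : ∀ y, e (n+1) y = 0) (hy0 : ∀ x, e x 0 = 0) (hyn : ∀ x, e x (n+1) = 0)
    (hdom : ∀ i j : ℕ, i < n → j < n → 0 ≤ L e (i+1) (j+1)) :
    ((n:ℤ)+2)^2 ≤ 5 * (∑ i ∈ range n, ∑ j ∈ range n, e (i+1) (j+1)) + 492 := by
  have hnn : ∀ x y, 0 ≤ e x y := by intro x y; rcases h01 x y with h|h <;> rw [h] <;> norm_num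
  by_cases hn : n < 20
  · have h1 : 0 ≤ ∑ i ∈ range n, ∑ j ∈ range n, e (i+1) (j+1) :=
      sum_nonneg (fun i _ => sum_nonneg (fun j _ => hnn _ _))
    have h2 : (n:ℤ) ≤ 19 := by exact_mod_cast (by omega : n ≤ 19)
    have h3 : (0:ℤ) ≤ n := by positivity
    nlinarith
  rw [not_lt] at hn
  obtain ⟨m, hm⟩ : ∃ m, n = 10 + m + 10 := ⟨n - 20, by omega⟩
  -- identity
  have hid : ∑ i ∈ range n, ∑ j ∈ range n, L e (i+1) (j+1) =
      5 * (∑ i ∈ range n, ∑ j ∈ range n, e (i+1) (j+1)) - (n:ℤ)^2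
      - (∑ j ∈ range n, e n (j+1)) - (∑ j ∈ range n, e 1 (j+1))
      - (∑ i ∈ range n, e (i+1) n) - (∑ i ∈ range n, e (i+1) 1) := by
    have t1 : ∑ i ∈ range n, ∑ j ∈ range n, e ((i:ℤ)+1-1) (j+1) =
        ∑ i ∈ range n, ∑ j ∈ range n, e (i+1) (j+1) - ∑ j ∈ range n, e n (j+1) := by
      rw [sum_shift_down (fun x => ∑ j ∈ range n, e x (j+1))]
      simp [hx0]
    have t2 : ∑ i ∈ range n, ∑ j ∈ range n, e ((i:ℤ)+1+1) (j+1) =
        ∑ i ∈ range n, ∑ j ∈ range n, e (i+1) (j+1) - ∑ j ∈ range n, e 1 (j+1) := by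
      rw [sum_shift_up (fun x => ∑ j ∈ range n, e x (j+1))]
      simp [hxn]
    have t3 : ∑ i ∈ range n, ∑ j ∈ range n, e (i+1) ((j:ℤ)+1-1) =
        ∑ i ∈ range n, ∑ j ∈ range n, e (i+1) (j+1) - ∑ i ∈ range n, e (i+1) n := by
      rw [← sum_sub_distrib]
      refine sum_congr rfl (fun i _ => ?_)
      rw [sum_shift_down (fun y => e (i+1) y)]
      simp [hy0]
    have t4 : ∑ i ∈ range n, ∑ j ∈ range n, e (i+1) ((j:ℤ)+1+1) =
        ∑ i ∈ range n, ∑ j ∈ range n, e (i+1) (j+1) - ∑ i ∈ range n, e (i+1) 1 := by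
      rw [← sum_sub_distrib]
      refine sum_congr rfl (fun i _ => ?_)
      rw [sum_shift_up (fun y => e (i+1) y)]
      simp [hyn]
    simp only [L, sum_sub_distrib, sum_add_distrib]
    rw [t1, t2, t3, t4]
    simp only [sum_const, card_range, nsmul_eq_mul, smul_eq_mul, mul_one]
    ring
  -- the four bands
  have hB := band_int e h01 hy0 11 m (by
    intro i hi j hj
    have := hdom (i+10) j (by omega) (by omega)
    push_cast at this
    have e1 : (11:ℤ) + i = i + 10 + 1 := by ring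
    have e2 : (1:ℤ) + j = j + 1 := by ring
    rw [e1, e2]; exact this)
  have hT := band_int (fun x y => e x ((n:ℤ)+1-y)) (fun x y => h01 _ _) (fun x => by simpa using hyn x) 11 m (by
    intro i hi j hj
    rw [L_flip]
    have := hdom (i+10) (n-1-j) (by omega) (by omega)
    push_cast [Nat.cast_sub (show j ≤ n-1 by omega), Nat.cast_sub (show 1 ≤ n by omega)] at this
    have e1 : (11:ℤ) + i = i + 10 + 1 := by ring
    have e2 : (n:ℤ) + 1 - (1 + j) = n - 1 - j + 1 := by ring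
    rw [e1, e2]; exact this)
  have hLf := band_int (fun x y => e y x) (fun x y => h01 _ _) (fun x => hx0 x) 11 m (by
    intro i hi j hj
    rw [L_swap]
    have := hdom j (i+10) (by omega) (by omega)
    push_cast at this
    have e1 : (11:ℤ) + i = i + 10 + 1 := by ring
    have e2 : (1:ℤ) + j = j + 1 := by ring
    rw [e1, e2]; exact this)
  have hR := band_int (fun x y => e ((n:ℤ)+1-y) x) (fun x y => h01 _ _) (fun x => by simpa using hxn x) 11 m (by
    intro i hi j hj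
    have := L_flip (fun x y => e y x) ((n:ℤ)+1) (11+i) (1+j)
    rw [this, L_swap]
    have := hdom (n-1-j) (i+10) (by omega) (by omega)
    push_cast [Nat.cast_sub (show j ≤ n-1 by omega), Nat.cast_sub (show 1 ≤ n by omega)] at this
    have e1 : (11:ℤ) + i = i + 10 + 1 := by ring
    have e2 : (n:ℤ) + 1 - (1 + j) = n - 1 - j + 1 := by ring
    rw [e1, e2]; exact this)
  have hLr : ∀ i j : ℕ, L (fun x y => e ((n:ℤ)+1-y) x) (11+i) (1+j) = L e ((n:ℤ) - j) (11+i) := by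
    intro i j
    have := L_flip (fun x y => e y x) ((n:ℤ)+1) (11+i) (1+j)
    rw [this, L_swap]
    congr 1; ring
  have hLt : ∀ i j : ℕ, L (fun x y => e x ((n:ℤ)+1-y)) (11+i) (1+j) = L e (11+i) ((n:ℤ)-j) := by
    intro i j
    rw [L_flip]; congr 1; ring
  simp only [hLr] at hR
  simp only [hLt] at hT
  simp only [L_swap] at hLf
  rw [sum_add_distrib] at hB hT hLf hR
  -- nonneg
  have hn0 : ∀ i j : ℕ, i < n → j < n → 0 ≤ L e (i+1) (j+1) := hdom
  -- decomposition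
  have hdec : (∑ i ∈ range m, ∑ j ∈ range 10, L e (11+i) (1+j)) + (∑ i ∈ range m, ∑ j ∈ range 10, L e (11+i) ((n:ℤ)-j))
      + (∑ i ∈ range m, ∑ j ∈ range 10, L e (1+(j:ℤ)) (11+i)) + (∑ i ∈ range m, ∑ j ∈ range 10, L e ((n:ℤ)-j) (11+i))
      ≤ ∑ i ∈ range n, ∑ j ∈ range n, L e (i+1) (j+1) := by
    have split : ∀ f : ℕ → ℤ, ∑ i ∈ range n, f i = ∑ i ∈ range 10, f i + ∑ i ∈ range m, f (10+i) + ∑ i ∈ range 10, f (10+m+i) := by
      intro f; rw [hm, sum_range_add, sum_range_add]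
    have refl10 : ∀ f : ℕ → ℤ, ∑ i ∈ range 10, f (10+m+i) = ∑ i ∈ range 10, f (10+m+9-i) := by
      intro f
      rw [← Finset.sum_range_reflect]
      refine sum_congr rfl (fun i hi => ?_)
      have := mem_range.mp hi
      congr 1; omega
    rw [split (fun i => ∑ j ∈ range n, L e (i+1) (j+1))]
    have q1 : ∑ i ∈ range m, ∑ j ∈ range 10, L e (1+(j:ℤ)) (11+i) ≤ ∑ i ∈ range 10, ∑ j ∈ range n, L e ((i:ℤ)+1) (j+1) := by
      rw [sum_comm]
      refine sum_le_sum (fun i hi => ?_)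
      have hi' := mem_range.mp hi
      rw [split (fun j => L e ((i:ℤ)+1) (j+1))]
      have a1 : 0 ≤ ∑ j ∈ range 10, L e ((i:ℤ)+1) (j+1) := sum_nonneg (fun j hj => hn0 i j (by omega) (by have := mem_range.mp hj; omega))
      have a2 : 0 ≤ ∑ j ∈ range 10, L e ((i:ℤ)+1) (((10+m+j : ℕ):ℤ)+1) := sum_nonneg (fun j hj => hn0 i (10+m+j) (by omega) (by have := mem_range.mp hj; omega))
      have a3 : ∑ j ∈ range m, L e (1+(i:ℤ)) (11+j) = ∑ j ∈ range m, L e ((i:ℤ)+1) (((10+j : ℕ):ℤ)+1) := by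
        refine sum_congr rfl (fun j _ => ?_)
        push_cast
        congr 1 <;> ring
      linarith
    have q3 : ∑ i ∈ range m, ∑ j ∈ range 10, L e ((n:ℤ)-j) (11+i) ≤ ∑ i ∈ range 10, ∑ j ∈ range n, L e (((10+m+i : ℕ):ℤ)+1) (j+1) := by
      rw [refl10 (fun i => ∑ j ∈ range n, L e ((i:ℤ)+1) (j+1)), sum_comm]
      refine sum_le_sum (fun i hi => ?_)
      have hi' := mem_range.mp hi
      rw [split (fun j => L e ((((10+m+9-i : ℕ)):ℤ)+1) (j+1))]
      have a1 : 0 ≤ ∑ j ∈ range 10, L e (((10+m+9-i : ℕ):ℤ)+1) (j+1) := sum_nonneg (fun j hj => hn0 _ j (by omega) (by have := mem_range.mp hj; omega))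
      have a2 : 0 ≤ ∑ j ∈ range 10, L e (((10+m+9-i : ℕ):ℤ)+1) (((10+m+j : ℕ):ℤ)+1) := sum_nonneg (fun j hj => hn0 _ (10+m+j) (by omega) (by have := mem_range.mp hj; omega))
      have e9 : (((10+m+9-i : ℕ):ℤ)+1) = (n:ℤ) - i := by
        have : ((10+m+9-i : ℕ):ℤ) = 10 + m + 9 - i := by omega
        rw [this, hm]; push_cast; ring
      have a3 : ∑ j ∈ range m, L e ((n:ℤ)-i) (11+j) = ∑ j ∈ range m, L e (((10+m+9-i : ℕ):ℤ)+1) (((10+j : ℕ):ℤ)+1) := by
        refine sum_congr rfl (fun j _ => ?_)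
        rw [e9]
        push_cast
        congr 1; ring
      linarith
    have q2 : (∑ i ∈ range m, ∑ j ∈ range 10, L e (11+i) (1+j)) + (∑ i ∈ range m, ∑ j ∈ range 10, L e (11+i) ((n:ℤ)-j))
        ≤ ∑ i ∈ range m, ∑ j ∈ range n, L e (((10+i : ℕ):ℤ)+1) (j+1) := by
      rw [← sum_add_distrib]
      refine sum_le_sum (fun i hi => ?_)
      have hi' := mem_range.mp hi
      rw [split (fun j => L e (((10+i : ℕ):ℤ)+1) (j+1)), refl10 (fun j => L e (((10+i : ℕ):ℤ)+1) ((j:ℤ)+1))]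
      have a1 : 0 ≤ ∑ j ∈ range m, L e (((10+i : ℕ):ℤ)+1) (((10+j : ℕ):ℤ)+1) := sum_nonneg (fun j hj => hn0 _ _ (by omega) (by have := mem_range.mp hj; omega))
      have a2 : ∑ j ∈ range 10, L e (11+i) (1+j) = ∑ j ∈ range 10, L e (((10+i : ℕ):ℤ)+1) (j+1) := by
        refine sum_congr rfl (fun j _ => ?_)
        push_cast
        congr 1 <;> ring
      have a3 : ∑ j ∈ range 10, L e (11+i) ((n:ℤ)-j) = ∑ j ∈ range 10, L e (((10+i : ℕ):ℤ)+1) (((10+m+9-j : ℕ):ℤ)+1) := by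
        refine sum_congr rfl (fun j hj => ?_)
        have hj' := mem_range.mp hj
        have e9 : (((10+m+9-j : ℕ):ℤ)+1) = (n:ℤ) - j := by
          have : ((10+m+9-j : ℕ):ℤ) = 10 + m + 9 - j := by omega
          rw [this, hm]; push_cast; ring
        rw [e9]
        push_cast
        congr 1; ring
      linarith
    linarith
  have hbord : ∀ f : ℤ → ℤ, (∀ x, 0 ≤ f x) → ∑ i ∈ range m, f (11+i) ≤ ∑ i ∈ range n, f (i+1) := by
    intro f hf
    rw [hm, sum_range_add, sum_range_add]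
    have a1 : 0 ≤ ∑ i ∈ range 10, f ((i:ℤ)+1) := sum_nonneg (fun j _ => hf _)
    have a2 : 0 ≤ ∑ i ∈ range 10, f (((10+m+i : ℕ):ℤ)+1) := sum_nonneg (fun j _ => hf _)
    have a3 : ∑ i ∈ range m, f (11+i) = ∑ i ∈ range m, f (((10+i : ℕ):ℤ)+1) := by
      refine sum_congr rfl (fun j _ => ?_)
      push_cast; congr 1; ring
    linarith
  have r1 := hbord (fun x => e x 1) (fun x => hnn _ _)
  have r2 := hbord (fun x => e x n) (fun x => hnn _ _)
  have r3 := hbord (fun y => e 1 y) (fun x => hnn _ _)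
  have r4 := hbord (fun y => e n y) (fun x => hnn _ _)
  simp only [add_sub_cancel_right] at hT hR
  have hmn : (n:ℤ) = m + 20 := by rw [hm]; push_cast; ring
  nlinarith [hid, hdec, hB, hT, hLf, hR, r1, r2, r3, r4]

end H480R3.Band

namespace H480R3

open Finset H480R3.Band

/-- the indicator function of `D`, cells shifted by `(1,1)` -/
noncomputable def ind {n : ℕ} (D : Finset (Fin n × Fin n)) (x y : ℤ) : ℤ :=
  if ∃ p ∈ D, ((p.1 : ℕ) : ℤ) + 1 = x ∧ ((p.2 : ℕ) : ℤ) + 1 = y then 1 else 0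

theorem ind_zero_one {n : ℕ} (D : Finset (Fin n × Fin n)) (x y : ℤ) : ind D x y = 0 ∨ ind D x y = 1 := by
  unfold ind; split_ifs <;> simp

theorem ind_mem {n : ℕ} (D : Finset (Fin n × Fin n)) (p : Fin n × Fin n) (hp : p ∈ D) :
    ind D (((p.1 : ℕ) : ℤ) + 1) (((p.2 : ℕ) : ℤ) + 1) = 1 := by
  unfold ind
  rw [if_pos ⟨p, hp, rfl, rfl⟩]

theorem ind_val {n : ℕ} (D : Finset (Fin n × Fin n)) (p : Fin n × Fin n) :
    ind D (((p.1 : ℕ) : ℤ) + 1) (((p.2 : ℕ) : ℤ) + 1) = if p ∈ D then 1 else 0 := by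
  by_cases hp : p ∈ D
  · rw [if_pos hp, ind_mem D p hp]
  · rw [if_neg hp]
    unfold ind
    rw [if_neg]
    rintro ⟨q, hq, h1, h2⟩
    apply hp
    have e1 : q.1 = p.1 := by apply Fin.ext; omega
    have e2 : q.2 = p.2 := by apply Fin.ext; omega
    have : q = p := Prod.ext e1 e2
    rw [← this]; exact hq

theorem sum_ind {n : ℕ} (D : Finset (Fin n × Fin n)) :
    ∑ i ∈ range n, ∑ j ∈ range n, ind D ((i:ℤ)+1) ((j:ℤ)+1) = D.card := by
  rw [Finset.sum_range (fun i => ∑ j ∈ range n, ind D ((i:ℤ)+1) ((j:ℤ)+1))]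
  have h : ∀ i : Fin n, ∑ j ∈ range n, ind D (((i:ℕ):ℤ)+1) ((j:ℤ)+1) = ∑ j : Fin n, if (i,j) ∈ D then (1:ℤ) else 0 := by
    intro i
    rw [Finset.sum_range (fun j => ind D (((i:ℕ):ℤ)+1) ((j:ℤ)+1))]
    refine sum_congr rfl (fun j _ => ?_)
    exact ind_val D (i, j)
  rw [sum_congr rfl (fun i _ => h i)]
  rw [← Finset.sum_product']
  simp

theorem lb : ∃ C : ℕ, ∀ n : ℕ, ∀ D : Finset (Fin n × Fin n),
    (∀ v : Fin n × Fin n, v ∈ D ∨ ∃ u ∈ D,
      (SimpleGraph.boxProd (SimpleGraph.pathGraph n) (SimpleGraph.pathGraph n)).Adj u v) →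
    (n+2)^2 ≤ 5 * D.card + C := by
  refine ⟨492, fun n D hD => ?_⟩
  have h := total n (ind D) (ind_zero_one D)
    (by intro y; unfold ind; rw [if_neg]; rintro ⟨p, -, h1, -⟩; omega)
    (by intro y; unfold ind; rw [if_neg]; rintro ⟨p, -, h1, -⟩; have := p.1.isLt; omega)
    (by intro y; unfold ind; rw [if_neg]; rintro ⟨p, -, -, h1⟩; omega)
    (by intro y; unfold ind; rw [if_neg]; rintro ⟨p, -, -, h1⟩; have := p.2.isLt; omega)
    (by
      intro i j hi hj
      have hnn : ∀ x y, 0 ≤ ind D x y := by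
        intro x y; rcases ind_zero_one D x y with h|h <;> rw [h] <;> norm_num
      unfold L
      have k0 := hnn ((i:ℤ)+1) ((j:ℤ)+1)
      have k1 := hnn ((i:ℤ)+1-1) ((j:ℤ)+1)
      have k2 := hnn ((i:ℤ)+1+1) ((j:ℤ)+1)
      have k3 := hnn ((i:ℤ)+1) ((j:ℤ)+1-1)
      have k4 := hnn ((i:ℤ)+1) ((j:ℤ)+1+1)
      rcases hD (⟨i, hi⟩, ⟨j, hj⟩) with h | ⟨u, hu, hadj⟩
      · have := ind_mem D _ h
        simp only at this
        linarith
      · have hu1 := ind_mem D u hu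
        rw [SimpleGraph.boxProd_adj] at hadj
        simp only [SimpleGraph.pathGraph_adj] at hadj
        rcases hadj with ⟨h1, h2⟩ | ⟨h1, h2⟩
        · have e2 : ((u.2 : ℕ):ℤ) = j := by rw [h2]
          rw [e2] at hu1
          rcases h1 with h1 | h1
          · have : ((u.1:ℕ):ℤ) + 1 = (i:ℤ)+1-1 := by omega
            rw [this] at hu1; linarith
          · have : ((u.1:ℕ):ℤ) + 1 = (i:ℤ)+1+1 := by omega
            rw [this] at hu1; linarith
        · have e2 : ((u.1 : ℕ):ℤ) = i := by rw [h2]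
          rw [e2] at hu1
          rcases h1 with h1 | h1
          · have : ((u.2:ℕ):ℤ) + 1 = (j:ℤ)+1-1 := by omega
            rw [this] at hu1; linarith
          · have : ((u.2:ℕ):ℤ) + 1 = (j:ℤ)+1+1 := by omega
            rw [this] at hu1; linarith)
  rw [sum_ind] at h
  exact_mod_cast h

end H480R3
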